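import Pool.Agent.Work.MP_794b84_ag.Powers

/-!
# Apolarity between powers of linear forms and directional derivatives
-/

namespace Pool.Agent.Work.MP_794b84_ag

open MvPolynomial

section Deriv

variable {A : Type*} [CommRing A] {σ : Type*} [Fintype σ]

/-- The derivative in the direction `a`. -/
noncomputable def dir (a : σ → A) (F : MvPolynomial σ A) : MvPolynomial σ A :=
  ∑ i, C (a i) * pderiv i F

theorem dir_zero (a : σ → A) : dir a 0 = 0 := by simp [dir]

theorem dir_add (a : σ → A) (F G : MvPolynomial σ A) : dir a (F + G) = dir a F + dir a G := by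
  simp [dir, mul_add, Finset.sum_add_distrib]

theorem dir_mul (a : σ → A) (F G : MvPolynomial σ A) :
    dir a (F * G) = F * dir a G + G * dir a F := by
  simp only [dir, pderiv_mul, Finset.mul_sum, ← Finset.sum_add_distrib]
  exact Finset.sum_congr rfl fun i _ => by ring

theorem dir_C_mul (a : σ → A) (c : A) (F : MvPolynomial σ A) :
    dir a (C c * F) = C c * dir a F := by
  simp only [dir, pderiv_C_mul, Finset.mul_sum]
  exact Finset.sum_congr rfl fun i _ => by ring

omit [Fintype σ] in
theorem pderiv_comm (i j : σ) (F : MvPolynomial σ A) :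
    pderiv i (pderiv j F) = pderiv j (pderiv i F) := by
  ext m
  simp only [coeff_pderiv]
  classical
  rw [add_right_comm]
  by_cases h : i = j
  · subst h; ring
  · simp [h, Ne.symm h]
    ring

theorem dir_pderiv (a : σ → A) (i : σ) (F : MvPolynomial σ A) :
    dir a (pderiv i F) = pderiv i (dir a F) := by
  simp only [dir, map_sum, pderiv_C_mul]
  exact Finset.sum_congr rfl fun j _ => by rw [pderiv_comm]

theorem iterate_dir_pderiv (a : σ → A) (i : σ) (n : ℕ) (F : MvPolynomial σ A) :
    (dir a)^[n] (pderiv i F) = pderiv i ((dir a)^[n] F) := by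
  induction n generalizing F with
  | zero => rfl
  | succ n ih => rw [Function.iterate_succ_apply, Function.iterate_succ_apply, dir_pderiv, ih]

theorem dir_isHomogeneous (a : σ → A) {F : MvPolynomial σ A} {d : ℕ} (hF : F.IsHomogeneous d) :
    (dir a F).IsHomogeneous (d - 1) :=
  IsHomogeneous.sum _ _ _ fun i _ => hF.pderiv.C_mul (a i)

theorem dir_eq_zero (a : σ → A) {F : MvPolynomial σ A} (hF : F.IsHomogeneous 0) :
    dir a F = 0 := by
  rw [← totalDegree_zero_iff_isHomogeneous, totalDegree_eq_zero_iff_eq_C] at hF
  rw [hF, dir]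
  simp

theorem iterate_dir_zero (a : σ → A) (n : ℕ) : (dir a)^[n] (0 : MvPolynomial σ A) = 0 := by
  induction n with
  | zero => rfl
  | succ n ih => rw [Function.iterate_succ_apply, dir_zero, ih]

theorem iterate_dir_isHomogeneous (a : σ → A) (n : ℕ) {F : MvPolynomial σ A} {d : ℕ}
    (hF : F.IsHomogeneous d) : ((dir a)^[n] F).IsHomogeneous (d - n) := by
  induction n generalizing F d with
  | zero => exact hF
  | succ n ih =>
    rw [Function.iterate_succ_apply]
    have := ih (dir_isHomogeneous a hF)
    rwa [Nat.sub_sub, add_comm 1 n] at this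

theorem iterate_dir_eq_zero (a : σ → A) {n : ℕ} {F : MvPolynomial σ A} {d : ℕ}
    (hF : F.IsHomogeneous d) (hn : d < n) : (dir a)^[n] F = 0 := by
  obtain ⟨m, rfl⟩ : ∃ m, n = m + d + 1 := ⟨n - d - 1, by omega⟩
  rw [show m + d + 1 = m + (d + 1) by ring, Function.iterate_add_apply,
    Function.iterate_succ_apply', dir_eq_zero, iterate_dir_zero]
  simpa using iterate_dir_isHomogeneous a d hF

theorem iterate_dir_mul_of_dir_eq_zero (a : σ → A) {y : MvPolynomial σ A} (hy : dir a y = 0)
    (n : ℕ) (F : MvPolynomial σ A) : (dir a)^[n] (y * F) = y * (dir a)^[n] F := by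
  induction n generalizing F with
  | zero => rfl
  | succ n ih =>
    rw [Function.iterate_succ_apply, Function.iterate_succ_apply, dir_mul, hy, mul_zero, add_zero,
      ih]

end Deriv

section Pairing

variable {k : Type*} [Field k] {σ : Type*} [Fintype σ] {ι : Type*}

/-- The apolar pairing `⟨F, G⟩ = ∑ u! F_u G_u`, as a linear functional of `G`. -/
noncomputable def pair (F : MvPolynomial σ k) : MvPolynomial σ k →ₗ[k] k :=
  (basisMonomials σ k).constr k fun u => ((∏ i, (u i).factorial : ℕ) : k) * coeff u F

theorem pair_monomial (F : MvPolynomial σ k) (u : σ →₀ ℕ) :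
    pair F (monomial u 1) = ((∏ i, (u i).factorial : ℕ) : k) * coeff u F := by
  have := (basisMonomials σ k).constr_basis k
    (fun u => ((∏ i, (u i).factorial : ℕ) : k) * coeff u F) u
  rwa [coe_basisMonomials] at this

theorem pair_X_mul (F G : MvPolynomial σ k) (i : σ) :
    pair F (X i * G) = pair (pderiv i F) G := by
  classical
  induction G using MvPolynomial.induction_on' with
  | monomial u c =>
    have h1 : (monomial u c : MvPolynomial σ k) = c • monomial u 1 := by
      rw [smul_monomial, smul_eq_mul, mul_one]
    rw [h1, mul_smul_comm, map_smul, map_smul]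
    congr 1
    have h2 : (X i * monomial u 1 : MvPolynomial σ k) = monomial (u + Finsupp.single i 1) 1 := by
      rw [X, monomial_mul, one_mul, add_comm]
    rw [h2, pair_monomial, pair_monomial, coeff_pderiv]
    have h3 : (∏ j, ((u + Finsupp.single i 1 : σ →₀ ℕ) j).factorial) =
        (∏ j, (u j).factorial) * (u i + 1) := by
      rw [← Finset.mul_prod_erase _ _ (Finset.mem_univ i),
        ← Finset.mul_prod_erase (Finset.univ) (fun j => (u j).factorial) (Finset.mem_univ i)]
      have h4 : ∀ j ∈ Finset.univ.erase i,
          ((u + Finsupp.single i 1 : σ →₀ ℕ) j).factorial = (u j).factorial := by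
        intro j hj
        rw [Finset.mem_erase] at hj
        simp [Ne.symm hj.1]
      rw [Finset.prod_congr rfl h4]
      simp [Nat.factorial_succ]
      ring
    rw [h3]
    push_cast
    ring
  | add p q hp hq => rw [mul_add, map_add, map_add, hp, hq]

theorem pair_add_left (F F' G : MvPolynomial σ k) :
    pair (F + F') G = pair F G + pair F' G := by
  induction G using MvPolynomial.induction_on' with
  | monomial u c =>
    have h1 : (monomial u c : MvPolynomial σ k) = c • monomial u 1 := by
      rw [smul_monomial, smul_eq_mul, mul_one]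
    rw [h1, map_smul, map_smul, map_smul, pair_monomial, pair_monomial, pair_monomial, coeff_add]
    simp only [smul_eq_mul]
    ring
  | add p q hp hq => rw [map_add, map_add, map_add, hp, hq]; ring

theorem pair_C_mul_left (c : k) (F G : MvPolynomial σ k) :
    pair (C c * F) G = c * pair F G := by
  induction G using MvPolynomial.induction_on' with
  | monomial u e =>
    have h1 : (monomial u e : MvPolynomial σ k) = e • monomial u 1 := by
      rw [smul_monomial, smul_eq_mul, mul_one]
    rw [h1, map_smul, map_smul, pair_monomial, pair_monomial, coeff_C_mul]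
    simp only [smul_eq_mul]
    ring
  | add p q hp hq => rw [map_add, map_add, hp, hq]; ring

theorem pair_zero_left (G : MvPolynomial σ k) : pair 0 G = 0 := by
  have := pair_C_mul_left 0 (0 : MvPolynomial σ k) G
  simpa using this

theorem pair_sum_left {τ : Type*} (s : Finset τ) (F : τ → MvPolynomial σ k)
    (G : MvPolynomial σ k) : pair (∑ t ∈ s, F t) G = ∑ t ∈ s, pair (F t) G := by
  classical
  induction s using Finset.induction_on with
  | empty => simp [pair_zero_left]
  | insert t s ht ih => rw [Finset.sum_insert ht, Finset.sum_insert ht, pair_add_left, ih]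

theorem pair_lin_mul (a : σ → k) (F G : MvPolynomial σ k) :
    pair F (lin a * G) = pair (dir a F) G := by
  rw [lin, Finset.sum_mul, map_sum, dir, pair_sum_left]
  refine Finset.sum_congr rfl fun i _ => ?_
  rw [mul_assoc, ← smul_eq_C_mul, map_smul, pair_X_mul, pair_C_mul_left, smul_eq_mul]

theorem pair_lin_pow_mul (a : σ → k) (n : ℕ) (F G : MvPolynomial σ k) :
    pair F (lin a ^ n * G) = pair ((dir a)^[n] F) G := by
  induction n generalizing F G with
  | zero => simp
  | succ n ih =>
    rw [pow_succ', mul_assoc, pair_lin_mul, ih, Function.iterate_succ_apply]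

variable [CharZero k]

theorem coeff_eq_zero_of_pair {F : MvPolynomial σ k} {u : σ →₀ ℕ}
    (h : pair F (monomial u 1) = 0) : coeff u F = 0 := by
  rw [pair_monomial] at h
  rcases mul_eq_zero.1 h with h | h
  · exfalso
    have : (∏ i, (u i).factorial) ≠ 0 :=
      Finset.prod_ne_zero_iff.2 fun i _ => Nat.factorial_ne_zero _
    exact this (Nat.cast_eq_zero.1 h)
  · exact h

/-- If the powers of linear forms generate everything in degree `d`, then there is no nonzero form
of degree `d` killed by the `n`-th derivatives. -/
theorem Full.eq_zero {a : ι → σ → k} {n d : ℕ} (h : Full a n d) {F : MvPolynomial σ k}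
    (hF : F.IsHomogeneous d) (hF' : ∀ j, (dir (a j))^[n] F = 0) : F = 0 := by
  have h1 : ∀ G ∈ pspan a n d, pair F G = 0 := by
    intro G hG
    induction hG using Submodule.span_induction with
    | mem x hx =>
      obtain ⟨j, w, hw, rfl⟩ := hx
      rw [pair_lin_pow_mul, hF', pair_zero_left]
    | zero => simp
    | add x y _ _ hx hy => rw [map_add, hx, hy, add_zero]
    | smul c x _ hx => rw [map_smul, hx, smul_zero]
  ext u
  rw [coeff_zero]
  by_cases hu : u.degree = d
  · exact coeff_eq_zero_of_pair (h1 _ (h u hu))
  · exact hF.coeff_eq_zero hu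

/-- Converse: if there is no nonzero form of degree `d` killed by the `n`-th derivatives, then the
`n`-th powers of the linear forms generate everything in degree `d`. -/
theorem full_of_forall_eq_zero {a : ι → σ → k} {n d : ℕ} (hnd : n ≤ d)
    (h : ∀ F : MvPolynomial σ k, F.IsHomogeneous d → (∀ j, (dir (a j))^[n] F = 0) → F = 0) :
    Full a n d := by
  classical
  intro v hv
  by_contra hcon
  obtain ⟨φ, hφ1, hφ2⟩ := Submodule.exists_le_ker_of_notMem hcon
  let T := {v : σ →₀ ℕ // v.degree = d}
  have : Finite T := Finsupp.finite_of_degree_eq (σ := σ) d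
  let _ : Fintype T := Fintype.ofFinite T
  let F : MvPolynomial σ k := ∑ u : T,
    monomial u.1 (φ (monomial u.1 1) / ((∏ i, (u.1 i).factorial : ℕ) : k))
  have hFd : F.IsHomogeneous d :=
    IsHomogeneous.sum _ _ _ fun u _ => isHomogeneous_monomial _ u.2
  have hcoeff : ∀ u : σ →₀ ℕ, u.degree = d →
      coeff u F = φ (monomial u 1) / ((∏ i, (u i).factorial : ℕ) : k) := by
    intro u hu
    simp only [F, coeff_sum, coeff_monomial]
    rw [Finset.sum_eq_single (⟨u, hu⟩ : T)]
    · simp
    · intro b _ hb
      rw [if_neg]
      intro hbu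
      exact hb (Subtype.ext hbu)
    · simp
  have hfac : ∀ u : σ →₀ ℕ, ((∏ i, (u i).factorial : ℕ) : k) ≠ 0 := by
    intro u
    rw [Nat.cast_ne_zero]
    exact Finset.prod_ne_zero_iff.2 fun i _ => Nat.factorial_ne_zero _
  have hpair : ∀ u : σ →₀ ℕ, u.degree = d → pair F (monomial u 1) = φ (monomial u 1) := by
    intro u hu
    rw [pair_monomial, hcoeff u hu, mul_div_cancel₀ _ (hfac u)]
  have hpair' : ∀ G : MvPolynomial σ k, G.IsHomogeneous d → pair F G = φ G := by
    intro G hG
    have h1 : G = ∑ u ∈ G.support, coeff u G • (monomial u 1 : MvPolynomial σ k) := by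
      conv_lhs => rw [G.as_sum]
      refine Finset.sum_congr rfl fun u _ => ?_
      rw [smul_monomial, smul_eq_mul, mul_one]
    rw [h1, map_sum, map_sum]
    refine Finset.sum_congr rfl fun u hu => ?_
    rw [map_smul, map_smul, hpair u ?_]
    exact (hG.degree_eq_sum_deg_support hu).symm
  have hF0 : F = 0 := by
    refine h F hFd fun j => ?_
    ext w
    rw [coeff_zero]
    by_cases hw : w.degree = d - n
    · apply coeff_eq_zero_of_pair
      have hmem : lin (a j) ^ n * monomial w 1 ∈ pspan a n d :=
        Submodule.subset_span ⟨j, w, by omega, rfl⟩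
      rw [← pair_lin_pow_mul, hpair' _ (pspan_isHomogeneous hmem)]
      exact hφ2 hmem
    · exact (iterate_dir_isHomogeneous (a j) n hFd).coeff_eq_zero hw
  have h1 := hcoeff v hv
  rw [hF0, coeff_zero] at h1
  exact hφ1 ((div_eq_zero_iff.1 h1.symm).resolve_right (hfac v))

end Pairing

end Pool.Agent.Work.MP_794b84_ag
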