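import Mathlib

/-!
# Definitions for Demailly's conjecture on Waldschmidt constants

`k` is a field, `ℙ k (Fin (N + 1) → k)` is the projective space `P^N` over `k`
(Mathlib's projectivization of `k^(N+1)`), and `MvPolynomial (Fin (N + 1)) k` is its homogeneous
coordinate ring `k[x_0, ..., x_N]`.
-/

namespace Pool.Agent.Work.MP_794b84_ag

open MvPolynomial Filter Topology
open scoped LinearAlgebra.Projectivization

variable {k : Type*} [Field k] {N : ℕ}

/-- The homogeneous prime ideal of the point `P` of `P^N`: the ideal of `k[x_0, ..., x_N]`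
generated by all homogeneous polynomials (forms) which vanish at `P`. -/
noncomputable def pointIdeal (P : ℙ k (Fin (N + 1) → k)) :
    Ideal (MvPolynomial (Fin (N + 1)) k) :=
  Ideal.span {f | (∃ d, f.IsHomogeneous d) ∧ eval P.rep f = 0}

/-- The `m`-th symbolic power `I^(m) = p_1^m ∩ ... ∩ p_s^m` of the defining ideal `I = I(X)` of the
finite set of points `X = {P_1, ..., P_s}`; for `m = 1` it is the defining ideal itself. -/
noncomputable def symbolicPower (X : Finset (ℙ k (Fin (N + 1) → k))) (m : ℕ) :
    Ideal (MvPolynomial (Fin (N + 1)) k) :=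
  ⨅ P ∈ X, pointIdeal P ^ m

/-- `α(J)`: the least degree of a nonzero form in the ideal `J`. -/
noncomputable def initialDegree (J : Ideal (MvPolynomial (Fin (N + 1)) k)) : ℕ :=
  sInf {d | ∃ f ∈ J, f ≠ 0 ∧ f.IsHomogeneous d}

/-- The Waldschmidt constant `lim_{n → ∞} α(I^(n)) / n` of the defining ideal of the finite set of
points `X`. -/
noncomputable def waldschmidt (X : Finset (ℙ k (Fin (N + 1) → k))) : ℝ :=
  limUnder atTop fun n : ℕ => (initialDegree (symbolicPower X n) : ℝ) / n

end Pool.Agent.Work.MP_794b84_ag
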