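import Pool.Agent.Work.MP_794b84_ag.Powers

/-!
# Passing between characteristic `0` and characteristic `p`
-/

namespace Pool.Agent.Work.MP_794b84_ag

open MvPolynomial

section Lift

variable {A : Type*} [CommRing A] {σ : Type*} [Fintype σ] {ι : Type*}

/-- Lifting spanning along `A → κ`, where `A` embeds in the field `k`. -/
theorem Full.lift {κ k : Type*} [CommRing κ] [Nontrivial κ] [Field k] (π : A →+* κ)
    (hπ : Function.Surjective π) (f : A →+* k) (hf : Function.Injective f)
    {a : ι → σ → A} {n d : ℕ} (h : Full (fun j i => π (a j i)) n d) :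
    Full (fun j i => f (a j i)) n d := by
  classical
  let T := {v : σ →₀ ℕ // v.degree = d}
  have : Finite T := Finsupp.finite_of_degree_eq (σ := σ) d
  have : Fintype T := Fintype.ofFinite T
  choose G hG hG' using fun v : T => exists_lift_pspan π hπ (h v.1 v.2)
  let M : Matrix T T A := fun v u => coeff u.1 (G v)
  have hM : π.mapMatrix M = 1 := by
    ext v u
    rw [RingHom.mapMatrix_apply, Matrix.map_apply, Matrix.one_apply]
    have h1 : π (M v u) = coeff u.1 (MvPolynomial.map π (G v)) := by
      rw [coeff_map]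
    rw [h1, hG', coeff_monomial]
    by_cases huv : v = u
    · rw [if_pos huv, if_pos (congrArg Subtype.val huv)]
    · rw [if_neg huv, if_neg fun h' => huv (Subtype.ext h')]
  have hdet : M.det ≠ 0 := by
    intro h0
    have h1 : π M.det = 1 := by rw [RingHom.map_det, hM, Matrix.det_one]
    rw [h0, map_zero] at h1
    exact zero_ne_one h1
  have hdet' : IsUnit (f.mapMatrix M).det := by
    rw [← RingHom.map_det]
    exact (map_ne_zero_iff f hf |>.2 hdet).isUnit
  have hGsum : ∀ v : T, G v = ∑ u : T, M v u • monomial u.1 1 := by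
    intro v
    ext w
    simp only [coeff_sum, coeff_smul, coeff_monomial, smul_eq_mul, mul_ite, mul_one, mul_zero]
    by_cases hw : w.degree = d
    · rw [Finset.sum_eq_single (⟨w, hw⟩ : T)]
      · simp [M]
      · intro b _ hb
        rw [if_neg]
        intro hbw
        exact hb (Subtype.ext hbw)
      · simp
    · rw [(pspan_isHomogeneous (hG v)).coeff_eq_zero hw, Finset.sum_eq_zero]
      intro b _
      rw [if_neg]
      intro hbw
      exact hw (hbw ▸ b.2)
  intro w hw
  have key : (monomial w 1 : MvPolynomial σ k) =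
      ∑ v : T, ((f.mapMatrix M)⁻¹ ⟨w, hw⟩ v) • MvPolynomial.map f (G v) := by
    have h1 : ∀ v : T, MvPolynomial.map f (G v) =
        ∑ u : T, (f.mapMatrix M v u) • (monomial u.1 1 : MvPolynomial σ k) := by
      intro v
      conv_lhs => rw [hGsum v]
      rw [map_sum]
      refine Finset.sum_congr rfl fun u _ => ?_
      rw [MvPolynomial.smul_eq_C_mul, map_mul, MvPolynomial.map_C, ← MvPolynomial.smul_eq_C_mul,
        MvPolynomial.map_monomial, map_one]
      rfl
    simp_rw [h1, Finset.smul_sum, smul_smul]
    rw [Finset.sum_comm]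
    simp_rw [← Finset.sum_smul]
    have h2 : ∀ u : T, ∑ v : T, (f.mapMatrix M)⁻¹ ⟨w, hw⟩ v * (f.mapMatrix M) v u =
        (1 : Matrix T T k) ⟨w, hw⟩ u := by
      intro u
      rw [← Matrix.mul_apply, Matrix.nonsing_inv_mul _ hdet']
    simp_rw [h2]
    rw [Finset.sum_eq_single (⟨w, hw⟩ : T)]
    · simp
    · intro b _ hb
      rw [Matrix.one_apply_ne (Ne.symm hb), zero_smul]
    · simp
  rw [key]
  exact Submodule.sum_mem _ fun v _ => Submodule.smul_mem _ _ (map_mem_pspan f (hG v))

end Lift

section Descend

/-- A finitely generated `ℤ`-algebra inside a field of characteristic zero has a quotient field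
of positive characteristic. -/
theorem exists_char_p (κ : Type*) [Field κ] (hκ : (Int.castRingHom κ).FiniteType) :
    ∃ p : ℕ, p.Prime ∧ CharP κ p := by
  have : IsJacobsonRing ℤ := by
    rw [isJacobsonRing_iff_prime_eq]
    intro P hP
    by_cases hP0 : P = ⊥
    · subst hP0
      rw [eq_bot_iff]
      intro x hx
      by_contra hx0
      have hx0' : x ≠ 0 := fun h => hx0 (by simp [h])
      -- choose a prime not dividing x
      obtain ⟨p, hp, hpp⟩ := Nat.exists_infinite_primes (x.natAbs + 1)
      have hmax : (Ideal.span {(p : ℤ)}).IsMaximal := by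
        have hprime : Prime (p : ℤ) := Nat.prime_iff_prime_int.1 hpp
        exact PrincipalIdealRing.isMaximal_of_irreducible hprime.irreducible
      have hmem : x ∈ Ideal.span {(p : ℤ)} := by
        have := Ideal.mem_jacobson_bot.1 hx
        rw [Ideal.jacobson, Ideal.mem_sInf] at hx
        exact hx ⟨bot_le, hmax⟩
      rw [Ideal.mem_span_singleton] at hmem
      have h1 : p ∣ x.natAbs := Int.natCast_dvd.1 hmem
      have h2 := Nat.le_of_dvd (Int.natAbs_pos.2 hx0') h1
      omega
    · have : P.IsMaximal := hP.isMaximal hP0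
      exact Ideal.jacobson_eq_self_of_isMaximal
  have hfin : (Int.castRingHom κ).Finite := RingHom.finite_iff_finiteType_of_isJacobsonRing.2 hκ
  obtain ⟨p, hp⟩ := CharP.exists κ
  refine ⟨p, ?_, hp⟩
  rcases CharP.char_is_prime_or_zero κ p with h | h
  · exact h
  · exfalso
    subst h
    have : CharZero κ := CharP.charP_to_charZero κ
    have hint : Algebra.IsIntegral ℤ κ := by
      have h1 : algebraMap ℤ κ = Int.castRingHom κ := RingHom.ext_int _ _
      have h2 : (algebraMap ℤ κ).IsIntegral := by
        rw [h1]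
        exact hfin.to_isIntegral
      exact Algebra.isIntegral_def.2 h2
    have hinj : Function.Injective (algebraMap ℤ κ) := (algebraMap ℤ κ).injective_int
    have hfield : IsField ℤ := isField_of_isIntegral_of_isField hinj (Field.toIsField κ)
    exact Int.not_isField hfield

/-- Descent: an identity over a field of characteristic zero involves only finitely many
coefficients, and so lives over a finitely generated subring. -/
theorem Full.descend {k : Type*} [Field k] {σ : Type*} [Fintype σ] {ι : Type*} [Fintype ι]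
    {a : ι → σ → k} {n d : ℕ} (h : Full a n d) :
    ∃ (A : Subalgebra ℤ k) (_ : Algebra.FiniteType ℤ A) (b : ι → σ → A),
      (∀ j i, ((b j i : A) : k) = a j i) ∧ Full b n d := by
  classical
  let T := {v : σ →₀ ℕ // v.degree = d}
  have : Finite T := Finsupp.finite_of_degree_eq (σ := σ) d
  let T' := {w : σ →₀ ℕ // w.degree + n = d}
  have : Finite T' := by
    have h1 : ({w : σ →₀ ℕ | w.degree + n = d}).Finite :=
      (Finsupp.finite_of_degree_le (σ := σ) d).subset fun w hw => by
        simp only [Set.mem_ofPred_eq] at hw ⊢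
        omega
    exact h1
  let _ : Fintype T := Fintype.ofFinite T
  let _ : Fintype T' := Fintype.ofFinite T'
  have hspan : ∀ v : T, ∃ c : ι × T' → k,
      ∑ x : ι × T', c x • (lin (a x.1) ^ n * monomial x.2.1 1) =
        (monomial v.1 1 : MvPolynomial σ k) := by
    intro v
    have h1 := h v.1 v.2
    have h2 : pspan a n d = Submodule.span k (Set.range fun x : ι × T' =>
        (lin (a x.1) ^ n * monomial x.2.1 1 : MvPolynomial σ k)) := by
      unfold pspan
      congr 1
      ext f
      constructor
      · rintro ⟨j, w, hw, rfl⟩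
        exact ⟨(j, ⟨w, hw⟩), rfl⟩
      · rintro ⟨⟨j, w, hw⟩, rfl⟩
        exact ⟨j, w, hw, rfl⟩
    rw [h2] at h1
    exact (Submodule.mem_span_range_iff_exists_fun k).1 h1
  choose c hc using hspan
  let S : Set k := (Set.range fun x : ι × σ => a x.1 x.2) ∪
    (Set.range fun x : T × (ι × T') => c x.1 x.2)
  have hS : S.Finite := (Set.finite_range _).union (Set.finite_range _)
  let A : Subalgebra ℤ k := Algebra.adjoin ℤ S
  have hA : Algebra.FiniteType ℤ A := by
    have h1 : A.FG := Subalgebra.fg_def.2 ⟨S, hS, rfl⟩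
    exact (Subalgebra.fg_iff_finiteType A).1 h1
  have ha : ∀ j i, a j i ∈ A := fun j i =>
    Algebra.subset_adjoin (Or.inl ⟨(j, i), rfl⟩)
  have hc' : ∀ v x, c v x ∈ A := fun v x =>
    Algebra.subset_adjoin (Or.inr ⟨(v, x), rfl⟩)
  refine ⟨A, hA, fun j i => ⟨a j i, ha j i⟩, fun _ _ => rfl, ?_⟩
  intro v hv
  have key : (monomial v 1 : MvPolynomial σ A) =
      ∑ x : ι × T', (⟨c ⟨v, hv⟩ x, hc' _ x⟩ : A) •
        (lin (fun i => (⟨a x.1 i, ha x.1 i⟩ : A)) ^ n * monomial x.2.1 1) := by
    apply MvPolynomial.map_injective (algebraMap A k) (FaithfulSMul.algebraMap_injective A k)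
    rw [map_sum, MvPolynomial.map_monomial, map_one, ← hc ⟨v, hv⟩]
    refine Finset.sum_congr rfl fun x _ => ?_
    rw [MvPolynomial.smul_eq_C_mul (_ * _ : MvPolynomial σ A), map_mul, MvPolynomial.map_C,
      ← MvPolynomial.smul_eq_C_mul, map_mul, map_pow, map_lin, MvPolynomial.map_monomial,
      map_one (algebraMap A k)]
    rfl
  rw [key]
  refine Submodule.sum_mem _ fun x _ => Submodule.smul_mem _ _ (Submodule.subset_span ?_)
  exact ⟨x.1, x.2.1, x.2.2, rfl⟩

/-- The key propagation theorem, in characteristic zero: there is a prime `p` such that for all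
powers `q` of `p`, fullness for `(n, d)` implies fullness for `(nq, q(d + N) - N)`. -/
theorem Full.propagate {k : Type*} [Field k] [CharZero k] {σ : Type*} [Fintype σ]
    {ι : Type*} [Fintype ι] {a : ι → σ → k} {n d : ℕ} (h : Full a n d) :
    ∃ p : ℕ, p.Prime ∧ ∀ e D : ℕ, p ^ e * d + Fintype.card σ * (p ^ e - 1) ≤ D + (p ^ e - 1) →
      Full a (n * p ^ e) D := by
  obtain ⟨A, hA, b, hb, hfull⟩ := h.descend
  obtain ⟨m, hm⟩ := Ideal.exists_maximal A
  let _ : Field (A ⧸ m) := Ideal.Quotient.field m
  have hft : (Int.castRingHom (A ⧸ m)).FiniteType := by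
    have h1 : (Int.castRingHom (A ⧸ m)) = (Ideal.Quotient.mk m).comp (algebraMap ℤ A) :=
      RingHom.ext_int _ _
    rw [h1]
    exact (RingHom.FiniteType.of_surjective _ Ideal.Quotient.mk_surjective).comp
      (RingHom.finiteType_algebraMap.2 hA)
  obtain ⟨p, hp, hchar⟩ := exists_char_p (A ⧸ m) hft
  have : Fact p.Prime := ⟨hp⟩
  refine ⟨p, hp, fun e D hD => ?_⟩
  have h1 := hfull.map (Ideal.Quotient.mk m)
  have h2 := h1.frobenius p e hD
  have h3 := Full.lift (Ideal.Quotient.mk m) Ideal.Quotient.mk_surjective (algebraMap A k)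
    (FaithfulSMul.algebraMap_injective A k) h2
  have h4 : (fun j i => algebraMap A k (b j i)) = a := by
    funext j i
    exact hb j i
  rwa [h4] at h3

end Descend

end Pool.Agent.Work.MP_794b84_ag
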