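import Pool.Agent.Work.MP_794b84_ag.Vanish
import Pool.Agent.Work.MP_794b84_ag.Lift

/-!
# Demailly's inequality for Waldschmidt constants
-/

namespace Pool.Agent.Work.MP_794b84_ag

open MvPolynomial Filter Topology
open scoped LinearAlgebra.Projectivization

section

variable {k : Type*} [Field k] [CharZero k] {N : ℕ}

omit [CharZero k] in
theorem mem_symbolicPower {X : Finset (ℙ k (Fin (N + 1) → k))} {m : ℕ}
    {f : MvPolynomial (Fin (N + 1)) k} :
    f ∈ symbolicPower X m ↔ ∀ P ∈ X, f ∈ pointIdeal P ^ m := by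
  simp only [symbolicPower, Submodule.mem_iInf]

omit [CharZero k] in
theorem exists_rep_ne_zero (P : ℙ k (Fin (N + 1) → k)) : ∃ c, P.rep c ≠ 0 :=
  Function.ne_iff.1 P.rep_nonzero

theorem iterate_dir_of_mem {X : Finset (ℙ k (Fin (N + 1) → k))} {u d j : ℕ}
    {F : MvPolynomial (Fin (N + 1)) k} (hF : F.IsHomogeneous d) (hu : F ∈ symbolicPower X u)
    (h : d + 1 ≤ j + u) {P : ℙ k (Fin (N + 1) → k)} (hP : P ∈ X) :
    (dir P.rep)^[j] F = 0 := by
  obtain ⟨c, hc⟩ := exists_rep_ne_zero P
  exact iterate_dir_of_mem_pow hc hF (mem_symbolicPower.1 hu P hP) h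

theorem mem_of_iterate_dir {X : Finset (ℙ k (Fin (N + 1) → k))} {m d j : ℕ}
    {F : MvPolynomial (Fin (N + 1)) k} (hF : F.IsHomogeneous d) (h : m + j ≤ d + 1)
    (hj : ∀ P ∈ X, (dir P.rep)^[j] F = 0) : F ∈ symbolicPower X m := by
  refine mem_symbolicPower.2 fun P hP => ?_
  obtain ⟨c, hc⟩ := exists_rep_ne_zero P
  exact mem_pow_of_iterate_dir hc d F m j hF (hj P hP) h

omit [CharZero k] in
/-- A nonzero linear form vanishing at a point of `P^N`, `N ≥ 1`. -/
theorem exists_linear_form (hN : 1 ≤ N) (P : ℙ k (Fin (N + 1) → k)) :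
    ∃ L : MvPolynomial (Fin (N + 1)) k, L ≠ 0 ∧ L.IsHomogeneous 1 ∧ L ∈ pointIdeal P := by
  obtain ⟨c, hc⟩ := exists_rep_ne_zero P
  have : Nontrivial (Fin (N + 1)) := Fin.nontrivial_iff_two_le.2 (by omega)
  obtain ⟨i, hi⟩ := exists_ne c
  refine ⟨ycoord P.rep c i, ?_, ycoord_isHomogeneous _ _ _, ?_⟩
  · intro h0
    have h1 := congrArg (coeff (Finsupp.single i 1)) h0
    have h2 : ¬ (Finsupp.single c 1 : Fin (N + 1) →₀ ℕ) = Finsupp.single i 1 := fun h2 =>
      hi ((Finsupp.single_left_inj (one_ne_zero)).1 h2).symm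
    rw [ycoord, nrm, coeff_zero, coeff_sub, coeff_C_mul, coeff_C_mul, coeff_X, coeff_X,
      if_neg h2, if_pos rfl, mul_zero, mul_zero, sub_zero] at h1
    exact one_ne_zero h1
  · exact mem_vecIdeal _ (ycoord_isHomogeneous _ _ _) (eval_ycoord hc i)

omit [CharZero k] in
/-- The symbolic powers contain nonzero forms. -/
theorem exists_form (hN : 1 ≤ N) (X : Finset (ℙ k (Fin (N + 1) → k))) (m : ℕ) :
    {d | ∃ f ∈ symbolicPower X m, f ≠ 0 ∧ f.IsHomogeneous d}.Nonempty := by
  choose L hL0 hL1 hL2 using fun P : ℙ k (Fin (N + 1) → k) => exists_linear_form hN P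
  refine ⟨∑ P ∈ X, 1 * m, ∏ P ∈ X, L P ^ m, ?_, ?_,
    IsHomogeneous.prod X (fun P => L P ^ m) (fun _ => 1 * m) fun P _ => (hL1 P).pow m⟩
  · refine mem_symbolicPower.2 fun P hP => ?_
    classical
    rw [← Finset.mul_prod_erase X _ hP]
    exact Ideal.mul_mem_right _ _ (Ideal.pow_mem_pow (hL2 P) m)
  · exact Finset.prod_ne_zero_iff.2 fun P _ => pow_ne_zero m (hL0 P)

omit [CharZero k] in
theorem exists_form_initialDegree (hN : 1 ≤ N) (X : Finset (ℙ k (Fin (N + 1) → k))) (m : ℕ) :
    ∃ f ∈ symbolicPower X m, f ≠ 0 ∧ f.IsHomogeneous (initialDegree (symbolicPower X m)) :=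
  Nat.sInf_mem (exists_form hN X m)

omit [CharZero k] in
theorem initialDegree_le {J : Ideal (MvPolynomial (Fin (N + 1)) k)}
    {f : MvPolynomial (Fin (N + 1)) k} {d : ℕ} (hf : f ∈ J) (h0 : f ≠ 0)
    (hd : f.IsHomogeneous d) : initialDegree J ≤ d := Nat.sInf_le ⟨f, hf, h0, hd⟩

omit [CharZero k] in
/-- If there is no nonzero form of degree `D` then the initial degree is larger than `D`. -/
theorem lt_initialDegree (hN : 1 ≤ N) {X : Finset (ℙ k (Fin (N + 1) → k))} {m D : ℕ}
    (h : ∀ f ∈ symbolicPower X m, f.IsHomogeneous D → f = 0) :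
    D + 1 ≤ initialDegree (symbolicPower X m) := by
  by_contra hcon
  obtain ⟨f, hf, h0, hd⟩ := exists_form_initialDegree hN X m
  set e := initialDegree (symbolicPower X m) with he
  have h1 : (f * MvPolynomial.X 0 ^ (D - e)).IsHomogeneous D := by
    have h2 := hd.mul (isHomogeneous_X_pow (R := k) (0 : Fin (N + 1)) (D - e))
    rwa [show e + (D - e) = D by omega] at h2
  have h2 := h _ (Ideal.mul_mem_right _ _ hf) h1
  exact mul_ne_zero h0 (pow_ne_zero _ (MvPolynomial.X_ne_zero _)) h2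

theorem le_initialDegree (hN : 1 ≤ N) {X : Finset (ℙ k (Fin (N + 1) → k))} (hX : X.Nonempty)
    (m : ℕ) : m ≤ initialDegree (symbolicPower X m) := by
  obtain ⟨f, hf, h0, hd⟩ := exists_form_initialDegree hN X m
  by_contra hcon
  obtain ⟨P, hP⟩ := hX
  exact h0 (iterate_dir_of_mem (j := 0) hd hf (by omega) hP)

/-- The main inequality. -/
theorem main_inequality {M : ℕ} {X : Finset (ℙ k (Fin (M + 1 + 1) → k))} (hX : X.Nonempty)
    {m : ℕ} (hm : 1 ≤ m) :
    ∃ p : ℕ, p.Prime ∧ ∀ e : ℕ,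
      p ^ e * (initialDegree (symbolicPower X m) + M) - M ≤
        initialDegree (symbolicPower X (p ^ e * (m + M) - M)) := by
  have hN : 1 ≤ M + 1 := by omega
  have hα := le_initialDegree hN hX m
  set α := initialDegree (symbolicPower X m) with hαdef
  rcases Nat.eq_or_lt_of_le hα with hα' | hα'
  · refine ⟨2, Nat.prime_two, fun e => ?_⟩
    rw [← hα']
    exact le_initialDegree hN hX _
  · let a : X → Fin (M + 1 + 1) → k := fun P => P.1.rep
    have hfull : Full a (α - m) (α - 1) := by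
      refine full_of_forall_eq_zero (by omega) fun F hF hdir => ?_
      by_contra hF0
      have h1 : F ∈ symbolicPower X m :=
        mem_of_iterate_dir (j := α - m) hF (by omega) fun P hP => hdir ⟨P, hP⟩
      have h2 := initialDegree_le h1 hF0 hF
      omega
    obtain ⟨p, hp, hprop⟩ := hfull.propagate
    refine ⟨p, hp, fun e => ?_⟩
    have hq : 1 ≤ p ^ e := Nat.one_le_pow _ _ hp.pos
    obtain ⟨q, hq'⟩ : ∃ q, p ^ e = q + 1 := ⟨p ^ e - 1, by omega⟩
    have hprop' := hprop e
    rw [hq'] at hprop' ⊢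
    obtain ⟨n, hn⟩ : ∃ n, α = m + n := ⟨α - m, by omega⟩
    obtain ⟨m, rfl⟩ : ∃ m', m = m' + 1 := ⟨m - 1, by omega⟩
    have hD : ∃ D, (q + 1) * (α + M) - M = D + 1 := by
      refine ⟨(q + 1) * (α + M) - M - 1, ?_⟩
      have : (q + 1) * (α + M) = q * (α + M) + α + M := by ring
      omega
    obtain ⟨D, hD⟩ := hD
    rw [hD]
    refine lt_initialDegree hN fun F hF hFD => ?_
    have h1 : (q + 1) * (α + M) = D + 1 + M := by
      have : (q + 1) * (α + M) = q * (α + M) + α + M := by ring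
      omega
    have hfull' : Full a ((α - (m + 1)) * (q + 1)) D := by
      refine hprop' D ?_
      rw [Fintype.card_fin, Nat.add_sub_cancel]
      have h2 : α - 1 = m + n := by omega
      rw [h2]
      rw [hn] at h1
      nlinarith [h1]
    refine hfull'.eq_zero hFD fun P => ?_
    refine iterate_dir_of_mem hFD hF ?_ P.2
    have h3 : α - (m + 1) = n := by omega
    rw [h3]
    have h4 : (q + 1) * (m + 1 + M) = q * (m + 1 + M) + (m + 1) + M := by ring
    have h5 : (q + 1) * (m + 1 + M) - M = q * (m + 1 + M) + (m + 1) := by omega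
    rw [h5]
    rw [hn] at h1
    nlinarith [h1]

omit [CharZero k] in
/-- Subadditivity of the initial degrees. -/
theorem initialDegree_add_le (hN : 1 ≤ N) (X : Finset (ℙ k (Fin (N + 1) → k))) (m n : ℕ) :
    initialDegree (symbolicPower X (m + n)) ≤
      initialDegree (symbolicPower X m) + initialDegree (symbolicPower X n) := by
  obtain ⟨f, hf, hf0, hfd⟩ := exists_form_initialDegree hN X m
  obtain ⟨g, hg, hg0, hgd⟩ := exists_form_initialDegree hN X n
  refine initialDegree_le ?_ (mul_ne_zero hf0 hg0) (hfd.mul hgd)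
  refine mem_symbolicPower.2 fun P hP => ?_
  rw [pow_add]
  exact Ideal.mul_mem_mul (mem_symbolicPower.1 hf P hP) (mem_symbolicPower.1 hg P hP)

omit [CharZero k] in
theorem subadditive_initialDegree (hN : 1 ≤ N) (X : Finset (ℙ k (Fin (N + 1) → k))) :
    Subadditive fun n : ℕ => (initialDegree (symbolicPower X n) : ℝ) := by
  intro m n
  have h := initialDegree_add_le hN X m n
  show (initialDegree (symbolicPower X (m + n)) : ℝ) ≤
    initialDegree (symbolicPower X m) + initialDegree (symbolicPower X n)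
  exact_mod_cast h

omit [CharZero k] in
theorem bddBelow_initialDegree (X : Finset (ℙ k (Fin (N + 1) → k))) :
    BddBelow (Set.range fun n : ℕ => (initialDegree (symbolicPower X n) : ℝ) / n) := by
  refine ⟨0, ?_⟩
  rintro _ ⟨n, rfl⟩
  positivity

omit [CharZero k] in
/-- The limit defining the Waldschmidt constant exists. -/
theorem tendsto_waldschmidt (hN : 1 ≤ N) (X : Finset (ℙ k (Fin (N + 1) → k))) :
    Tendsto (fun n : ℕ => (initialDegree (symbolicPower X n) : ℝ) / n) atTop
      (𝓝 (waldschmidt X)) := by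
  have h := (subadditive_initialDegree hN X).tendsto_lim (bddBelow_initialDegree X)
  exact tendsto_nhds_limUnder ⟨_, h⟩

omit [CharZero k] in
/-- The Waldschmidt constant is a lower bound of all the quotients. -/
theorem waldschmidt_le (hN : 1 ≤ N) (X : Finset (ℙ k (Fin (N + 1) → k))) {n : ℕ} (hn : 1 ≤ n) :
    waldschmidt X ≤ (initialDegree (symbolicPower X n) : ℝ) / n := by
  have h := (subadditive_initialDegree hN X).tendsto_lim (bddBelow_initialDegree X)
  have h1 : waldschmidt X = (subadditive_initialDegree hN X).lim :=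
    tendsto_nhds_unique (tendsto_waldschmidt hN X) h
  rw [h1]
  exact (subadditive_initialDegree hN X).lim_le_div (bddBelow_initialDegree X) (by omega)

/-- **Demailly's inequality.** -/
theorem demailly (hN : 1 ≤ N) {X : Finset (ℙ k (Fin (N + 1) → k))} (hX : X.Nonempty)
    {m : ℕ} (hm : 1 ≤ m) :
    ((initialDegree (symbolicPower X m) : ℝ) + N - 1) / (m + N - 1) ≤ waldschmidt X := by
  obtain ⟨M, rfl⟩ : ∃ M, N = M + 1 := ⟨N - 1, by omega⟩
  obtain ⟨p, hp, hineq⟩ := main_inequality hX hm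
  have hα := le_initialDegree hN hX m
  set α := initialDegree (symbolicPower X m) with hαdef
  have hlim := tendsto_waldschmidt hN X
  -- the subsequence
  have hsub : Tendsto (fun e : ℕ => p ^ e * (m + M) - M) atTop atTop := by
    refine tendsto_atTop_mono (f := fun e : ℕ => e) (fun e => ?_) tendsto_id
    have h1 : e < p ^ e := Nat.lt_pow_self hp.one_lt
    have h2 : p ^ e * (m + M) = p ^ e * m + p ^ e * M := by ring
    have h3 : p ^ e * 1 ≤ p ^ e * m := Nat.mul_le_mul_left _ hm
    have h4 : 1 * M ≤ p ^ e * M := Nat.mul_le_mul_right _ (Nat.one_le_pow _ _ hp.pos)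
    omega
  refine ge_of_tendsto (hlim.comp hsub) (Eventually.of_forall fun e => ?_)
  have hq : 1 ≤ p ^ e := Nat.one_le_pow _ _ hp.pos
  have h1 := hineq e
  have h2 : M ≤ p ^ e * (m + M) := by nlinarith
  have h3 : M ≤ p ^ e * (α + M) := by nlinarith
  have h4 : 0 < p ^ e * (m + M) - M := by
    have : p ^ e * (m + M) = p ^ e * m + p ^ e * M := by ring
    have : p ^ e * 1 ≤ p ^ e * m := Nat.mul_le_mul_left _ hm
    have : 1 * M ≤ p ^ e * M := Nat.mul_le_mul_right _ hq
    omega
  simp only [Function.comp]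
  have h5 : ((p ^ e * (α + M) - M : ℕ) : ℝ) ≤
      (initialDegree (symbolicPower X (p ^ e * (m + M) - M)) : ℝ) := by exact_mod_cast h1
  have h6 : (0 : ℝ) < ((p ^ e * (m + M) - M : ℕ) : ℝ) := by exact_mod_cast h4
  have hm' : (1 : ℝ) ≤ m := by exact_mod_cast hm
  have hα' : (m : ℝ) ≤ α := by exact_mod_cast hα
  have hM' : (0 : ℝ) ≤ M := Nat.cast_nonneg M
  refine le_trans ?_ (div_le_div_of_nonneg_right h5 h6.le)
  rw [Nat.cast_sub h3, Nat.cast_sub h2] at *
  push_cast at *
  rw [div_le_div_iff₀ (by linarith) h6]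
  nlinarith [mul_nonneg hM' (sub_nonneg.2 hα')]

end

end Pool.Agent.Work.MP_794b84_ag
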