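import Mathlib

/-!
# Ideals of powers of linear forms: spanning in a given degree

`Full a n d` says that every form of degree `d` is a combination of the `ℓ_j ^ n * (monomial)`,
where `ℓ_j` is the linear form with coefficient vector `a j`.
-/

namespace Pool.Agent.Work.MP_794b84_ag

open MvPolynomial

section Basic

variable {A : Type*} [CommRing A] {σ : Type*} [Fintype σ] {ι : Type*}

/-- The linear form with coefficient vector `a`. -/
noncomputable def lin (a : σ → A) : MvPolynomial σ A := ∑ i, C (a i) * X i

/-- The degree `d` part of the ideal generated by the `n`-th powers of the linear forms. -/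
noncomputable def pspan (a : ι → σ → A) (n d : ℕ) : Submodule A (MvPolynomial σ A) :=
  Submodule.span A {f | ∃ (j : ι) (w : σ →₀ ℕ), w.degree + n = d ∧
    f = lin (a j) ^ n * monomial w 1}

/-- The `n`-th powers of the linear forms generate an ideal containing all forms of degree `d`. -/
def Full (a : ι → σ → A) (n d : ℕ) : Prop :=
  ∀ v : σ →₀ ℕ, v.degree = d → (monomial v 1 : MvPolynomial σ A) ∈ pspan a n d

theorem lin_isHomogeneous (a : σ → A) : (lin a).IsHomogeneous 1 :=
  IsHomogeneous.sum _ _ _ fun i _ => isHomogeneous_C_mul_X (a i) i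

theorem pspan_isHomogeneous {a : ι → σ → A} {n d : ℕ} {f : MvPolynomial σ A}
    (hf : f ∈ pspan a n d) : f.IsHomogeneous d := by
  have : pspan a n d ≤ homogeneousSubmodule σ A d := by
    refine Submodule.span_le.2 ?_
    rintro _ ⟨j, w, hw, rfl⟩
    have h1 := ((lin_isHomogeneous (a j)).pow n).mul
      (isHomogeneous_monomial (d := w) (1 : A) (n := w.degree) rfl)
    have : 1 * n + w.degree = d := by omega
    rw [this] at h1
    exact h1
  exact this hf

variable {B : Type*} [CommRing B]

theorem map_lin (f : A →+* B) (a : σ → A) :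
    MvPolynomial.map f (lin a) = lin fun i => f (a i) := by
  simp [lin]

theorem map_mem_pspan (f : A →+* B) {a : ι → σ → A} {n d : ℕ} {g : MvPolynomial σ A}
    (hg : g ∈ pspan a n d) :
    MvPolynomial.map f g ∈ pspan (fun j i => f (a j i)) n d := by
  induction hg using Submodule.span_induction with
  | mem x hx =>
    obtain ⟨j, w, hw, rfl⟩ := hx
    refine Submodule.subset_span ⟨j, w, hw, ?_⟩
    simp [map_lin]
  | zero => simp
  | add x y _ _ hx hy => rw [map_add]; exact Submodule.add_mem _ hx hy
  | smul c x _ hx =>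
    rw [MvPolynomial.smul_eq_C_mul, map_mul, MvPolynomial.map_C, ← MvPolynomial.smul_eq_C_mul]
    exact Submodule.smul_mem _ _ hx

theorem Full.map (f : A →+* B) {a : ι → σ → A} {n d : ℕ} (h : Full a n d) :
    Full (fun j i => f (a j i)) n d := by
  intro v hv
  simpa using map_mem_pspan f (h v hv)

/-- Lifting along a surjective ring homomorphism. -/
theorem exists_lift_pspan (f : A →+* B) (hf : Function.Surjective f) {a : ι → σ → A} {n d : ℕ}
    {g : MvPolynomial σ B} (hg : g ∈ pspan (fun j i => f (a j i)) n d) :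
    ∃ G ∈ pspan a n d, MvPolynomial.map f G = g := by
  induction hg using Submodule.span_induction with
  | mem x hx =>
    obtain ⟨j, w, hw, rfl⟩ := hx
    refine ⟨_, Submodule.subset_span ⟨j, w, hw, rfl⟩, ?_⟩
    simp [map_lin]
  | zero => exact ⟨0, Submodule.zero_mem _, by simp⟩
  | add x y _ _ hx hy =>
    obtain ⟨G, hG, rfl⟩ := hx
    obtain ⟨H, hH, rfl⟩ := hy
    exact ⟨G + H, Submodule.add_mem _ hG hH, by simp⟩
  | smul c x _ hx =>
    obtain ⟨G, hG, rfl⟩ := hx
    obtain ⟨c, rfl⟩ := hf c
    refine ⟨c • G, Submodule.smul_mem _ _ hG, ?_⟩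
    rw [MvPolynomial.smul_eq_C_mul, map_mul, MvPolynomial.map_C, ← MvPolynomial.smul_eq_C_mul]

/-- Multiplication by a monomial. -/
theorem mul_monomial_mem_pspan {a : ι → σ → A} {n d : ℕ} {g : MvPolynomial σ A}
    (hg : g ∈ pspan a n d) (w : σ →₀ ℕ) :
    g * monomial w 1 ∈ pspan a n (d + w.degree) := by
  induction hg using Submodule.span_induction with
  | mem x hx =>
    obtain ⟨j, w', hw, rfl⟩ := hx
    refine Submodule.subset_span ⟨j, w' + w, ?_, ?_⟩
    · rw [map_add]; omega
    · rw [mul_assoc, monomial_mul, one_mul]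
  | zero => simp
  | add x y _ _ hx hy => rw [add_mul]; exact Submodule.add_mem _ hx hy
  | smul c x _ hx => rw [smul_mul_assoc]; exact Submodule.smul_mem _ _ hx

/-- The Frobenius step. -/
theorem pow_mem_pspan (p : ℕ) [Fact p.Prime] [CharP A p] (e : ℕ) {a : ι → σ → A} {n d : ℕ}
    {g : MvPolynomial σ A} (hg : g ∈ pspan a n d) :
    g ^ p ^ e ∈ pspan a (n * p ^ e) (d * p ^ e) := by
  induction hg using Submodule.span_induction with
  | mem x hx =>
    obtain ⟨j, w, hw, rfl⟩ := hx
    refine Submodule.subset_span ⟨j, p ^ e • w, ?_, ?_⟩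
    · rw [map_nsmul, smul_eq_mul, ← hw]; ring
    · rw [mul_pow, ← pow_mul, monomial_pow, one_pow]
  | zero =>
    rw [zero_pow (pow_ne_zero _ (Fact.out : p.Prime).ne_zero)]
    exact Submodule.zero_mem _
  | add x y _ _ hx hy =>
    rw [add_pow_char_pow]
    exact Submodule.add_mem _ hx hy
  | smul c x _ hx =>
    rw [smul_pow]
    exact Submodule.smul_mem _ _ hx

/-- In characteristic `p`: if all forms of degree `d` lie in the ideal of the `n`-th powers, then
all forms of degree `q (d - 1 + r) - r + 1` lie in the ideal of the `nq`-th powers, where `q` is a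
power of `p` and `r` is the number of variables. -/
theorem Full.frobenius (p : ℕ) [Fact p.Prime] [CharP A p] (e : ℕ) {a : ι → σ → A} {n d D : ℕ}
    (h : Full a n d) (hD : p ^ e * d + Fintype.card σ * (p ^ e - 1) ≤ D + (p ^ e - 1)) :
    Full a (n * p ^ e) D := by
  classical
  intro u hu
  set q := p ^ e with hq
  have hq0 : 0 < q := pow_pos (Fact.out : p.Prime).pos _
  -- componentwise quotient
  let v' : σ →₀ ℕ := Finsupp.equivFunOnFinite.symm fun i => u i / q
  have hv' : d ≤ v'.degree := by
    have h1 : u.degree ≤ q * v'.degree + Fintype.card σ * (q - 1) := by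
      simp only [Finsupp.degree_eq_sum]
      rw [Finset.mul_sum]
      have : Fintype.card σ * (q - 1) = ∑ _i : σ, (q - 1) := by simp
      rw [this, ← Finset.sum_add_distrib]
      refine Finset.sum_le_sum fun i _ => ?_
      have h2 : v' i = u i / q := rfl
      rw [h2]
      have h3 := Nat.div_add_mod (u i) q
      have h4 := Nat.mod_lt (u i) hq0
      omega
    rw [hu] at h1
    by_contra hcon
    have h5 : v'.degree + 1 ≤ d := by omega
    have h6 : q * (v'.degree + 1) ≤ q * d := Nat.mul_le_mul_left _ h5
    rw [Nat.mul_add, mul_one] at h6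
    omega
  obtain ⟨v, hvv', hvd⟩ := Finsupp.exists_le_degree_eq v' d hv'
  have hle : q • v ≤ u := by
    intro i
    have h1 : v i ≤ u i / q := hvv' i
    have h2 : q * (u i / q) ≤ u i := Nat.mul_div_le _ _
    calc (q • v) i = q * v i := by simp
      _ ≤ q * (u i / q) := Nat.mul_le_mul_left _ h1
      _ ≤ u i := h2
  obtain ⟨w, rfl⟩ := le_iff_exists_add.mp hle
  have h1 := mul_monomial_mem_pspan (pow_mem_pspan p e (h v hvd)) w
  rw [← hq, monomial_pow, one_pow, monomial_mul, one_mul] at h1
  have h2 : d * q + w.degree = D := by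
    rw [map_add, map_nsmul, hvd, smul_eq_mul] at hu
    rw [← hu]; ring
  rwa [h2] at h1

end Basic

end Pool.Agent.Work.MP_794b84_ag
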