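import Pool.Agent.Work.MP_794b84_ag.Defs
import Pool.Agent.Work.MP_794b84_ag.Apolar

/-!
# Powers of the ideal of a point and directional derivatives

For a form `F` of degree `d` and a point with representative `a`, membership in the `m`-th power of
the ideal of the point is equivalent to the vanishing of the `(d - m + 1)`-st derivative of `F` in
the direction `a`.
-/

namespace Pool.Agent.Work.MP_794b84_ag

open MvPolynomial

section

variable {k : Type*} [Field k] [CharZero k] {σ : Type*} [Fintype σ]

/-- The ideal generated by the forms vanishing at the vector `a`. -/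
noncomputable def vecIdeal (a : σ → k) : Ideal (MvPolynomial σ k) :=
  Ideal.span {f | (∃ d, f.IsHomogeneous d) ∧ eval a f = 0}

omit [CharZero k] [Fintype σ] in
theorem mem_vecIdeal (a : σ → k) {f : MvPolynomial σ k} {d : ℕ} (hf : f.IsHomogeneous d)
    (h : eval a f = 0) : f ∈ vecIdeal a := Ideal.subset_span ⟨⟨d, hf⟩, h⟩

/-- A linear form with value one at `a`, where `c` is an index with `a c ≠ 0`. -/
noncomputable def nrm (a : σ → k) (c : σ) : MvPolynomial σ k := C (a c)⁻¹ * X c

/-- The linear forms `x_i - a_i L` vanishing at `a`. -/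
noncomputable def ycoord (a : σ → k) (c i : σ) : MvPolynomial σ k := X i - C (a i) * nrm a c

omit [CharZero k] [Fintype σ] in
theorem ycoord_isHomogeneous (a : σ → k) (c i : σ) : (ycoord a c i).IsHomogeneous 1 := by
  unfold ycoord nrm
  exact (isHomogeneous_X k i).sub ((isHomogeneous_C_mul_X _ _).C_mul _)

omit [CharZero k] [Fintype σ] in
theorem eval_ycoord {a : σ → k} {c : σ} (hc : a c ≠ 0) (i : σ) : eval a (ycoord a c i) = 0 := by
  simp [ycoord, nrm, hc]

omit [CharZero k] in
theorem dir_X (a : σ → k) (i : σ) : dir a (X i) = C (a i) := by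
  classical
  simp only [dir, pderiv_X]
  rw [Finset.sum_eq_single i]
  · simp
  · intro j _ hj
    simp [Ne.symm hj]
  · simp

omit [CharZero k] in
theorem dir_ycoord {a : σ → k} {c : σ} (hc : a c ≠ 0) (i : σ) : dir a (ycoord a c i) = 0 := by
  have h1 : ycoord a c i = X i + C (-(a i * (a c)⁻¹)) * X c := by
    simp only [ycoord, nrm, map_neg, map_mul]
    ring
  rw [h1, dir_add, dir_X, dir_C_mul, dir_X, ← map_mul, ← map_add]
  have : a i + -(a i * (a c)⁻¹) * a c = 0 := by field_simp; ring
  rw [this, map_zero]

omit [CharZero k] in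
/-- Euler's identity in the coordinates adapted to the point `a`. -/
theorem euler_point (a : σ → k) (c : σ) {F : MvPolynomial σ k} {d : ℕ}
    (hF : F.IsHomogeneous d) :
    (C (d : k) : MvPolynomial σ k) * F =
      ∑ i, ycoord a c i * pderiv i F + nrm a c * dir a F := by
  have h1 := hF.sum_X_mul_pderiv
  rw [nsmul_eq_mul] at h1
  rw [map_natCast, ← h1, dir, Finset.mul_sum, ← Finset.sum_add_distrib]
  refine Finset.sum_congr rfl fun i _ => ?_
  rw [ycoord]
  ring

omit [Fintype σ] in
theorem mem_of_C_mul_mem {I : Ideal (MvPolynomial σ k)} {d : ℕ} {F : MvPolynomial σ k}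
    (h : C ((d + 1 : ℕ) : k) * F ∈ I) : F ∈ I := by
  have h1 : F = C (((d + 1 : ℕ) : k)⁻¹) * (C ((d + 1 : ℕ) : k) * F) := by
    rw [← mul_assoc, ← map_mul, inv_mul_cancel₀ (Nat.cast_ne_zero.2 (Nat.succ_ne_zero d)),
      map_one, one_mul]
  rw [h1]
  exact I.mul_mem_left _ h

/-- If `F` is a form of degree `d` with vanishing `j`-th derivative in the direction `a`, then `F`
lies in the `m`-th power of the ideal of the point, `m = d - j + 1`. -/
theorem mem_pow_of_iterate_dir {a : σ → k} {c : σ} (hc : a c ≠ 0) (d : ℕ) :
    ∀ (F : MvPolynomial σ k) (m j : ℕ), F.IsHomogeneous d → (dir a)^[j] F = 0 → m + j ≤ d + 1 →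
      F ∈ vecIdeal a ^ m := by
  induction d with
  | zero =>
    intro F m j hF hj hmj
    rcases Nat.eq_zero_or_pos m with rfl | hm
    · simp
    · have hj0 : j = 0 := by omega
      subst hj0
      have : F = 0 := hj
      rw [this]
      exact Ideal.zero_mem _
  | succ d ih =>
    intro F m j hF hj hmj
    rcases Nat.eq_zero_or_pos m with rfl | hm
    · simp
    rcases Nat.eq_zero_or_pos j with rfl | hj0
    · have : F = 0 := hj
      rw [this]
      exact Ideal.zero_mem _
    obtain ⟨m, rfl⟩ : ∃ m', m = m' + 1 := ⟨m - 1, by omega⟩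
    obtain ⟨j, rfl⟩ : ∃ j', j = j' + 1 := ⟨j - 1, by omega⟩
    apply mem_of_C_mul_mem (d := d)
    rw [euler_point a c hF]
    refine Ideal.add_mem _ (Ideal.sum_mem _ fun i _ => ?_) (Ideal.mul_mem_left _ _ ?_)
    · rw [pow_succ']
      refine Ideal.mul_mem_mul (mem_vecIdeal a (ycoord_isHomogeneous a c i) (eval_ycoord hc i)) ?_
      refine ih (pderiv i F) m (j + 1) hF.pderiv ?_ (by omega)
      rw [iterate_dir_pderiv, hj, map_zero]
    · refine ih (dir a F) (m + 1) j (dir_isHomogeneous a hF) ?_ (by omega)
      rwa [Function.iterate_succ_apply] at hj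

/-- The ideal of the point is generated by the linear forms `ycoord a c i`. -/
theorem mem_span_ycoord {a : σ → k} {c : σ} (d : ℕ) :
    ∀ F : MvPolynomial σ k, F.IsHomogeneous d → eval a F = 0 →
      F ∈ Ideal.span (Set.range (ycoord a c)) := by
  induction d with
  | zero =>
    intro F hF h0
    rw [← totalDegree_zero_iff_isHomogeneous, totalDegree_eq_zero_iff_eq_C] at hF
    rw [hF, eval_C] at h0
    rw [hF, h0, map_zero]
    exact Ideal.zero_mem _
  | succ d ih =>
    intro F hF h0
    apply mem_of_C_mul_mem (d := d)
    rw [euler_point a c hF]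
    refine Ideal.add_mem _ (Ideal.sum_mem _ fun i _ => ?_) (Ideal.mul_mem_left _ _ ?_)
    · exact Ideal.mul_mem_right _ _ (Ideal.subset_span ⟨i, rfl⟩)
    · refine ih (dir a F) (dir_isHomogeneous a hF) ?_
      have h1 := congrArg (eval a) hF.sum_X_mul_pderiv
      rw [map_nsmul, h0, smul_zero] at h1
      rw [← h1, dir]
      simp

/-- Elements of the `u`-th power of the ideal of the point: the degree `e` component is killed by
the derivatives of order `> e - u`. -/
theorem iterate_dir_component {a : σ → k} {c : σ} (hc : a c ≠ 0) (u : ℕ) :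
    ∀ G ∈ vecIdeal a ^ u, ∀ e j : ℕ, e + 1 ≤ j + u →
      (dir a)^[j] (homogeneousComponent e G) = 0 := by
  induction u with
  | zero =>
    intro G _ e j hej
    exact iterate_dir_eq_zero a (homogeneousComponent_isHomogeneous e G) (by omega)
  | succ u ih =>
    intro G hG
    have hle : vecIdeal a ≤ Ideal.span (Set.range (ycoord a c)) := by
      refine Ideal.span_le.2 ?_
      rintro f ⟨⟨d, hf⟩, h0⟩
      exact mem_span_ycoord d f hf h0
    have hG' : G ∈ Ideal.span (Set.range (ycoord a c)) * vecIdeal a ^ u := by
      rw [pow_succ'] at hG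
      exact Ideal.mul_mono_left hle hG
    have hiter_add : ∀ (j : ℕ) (x y : MvPolynomial σ k),
        (dir a)^[j] (x + y) = (dir a)^[j] x + (dir a)^[j] y := by
      intro j
      induction j with
      | zero => intro x y; rfl
      | succ j ihj =>
        intro x y
        rw [Function.iterate_succ_apply, dir_add, ihj, Function.iterate_succ_apply,
          Function.iterate_succ_apply]
    -- the basic case
    have hbasic : ∀ i : σ, ∀ n ∈ vecIdeal a ^ u, ∀ e j : ℕ, e + 1 ≤ j + (u + 1) →
        (dir a)^[j] (homogeneousComponent e (ycoord a c i * n)) = 0 := by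
      intro i n hn e j hej
      have h1 : ycoord a c i * n = ∑ s ∈ Finset.range (n.totalDegree + 1),
          ycoord a c i * homogeneousComponent s n := by
        rw [← Finset.mul_sum, sum_homogeneousComponent]
      rw [h1, map_sum]
      have h2 : ∀ (s : Finset ℕ) (f : ℕ → MvPolynomial σ k),
          (dir a)^[j] (∑ t ∈ s, f t) = ∑ t ∈ s, (dir a)^[j] (f t) := by
        intro s f
        classical
        induction s using Finset.induction_on with
        | empty => simp [iterate_dir_zero]
        | insert t s ht ihs =>
          rw [Finset.sum_insert ht, Finset.sum_insert ht, hiter_add, ihs]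
      rw [h2]
      refine Finset.sum_eq_zero fun s _ => ?_
      have h3 : (ycoord a c i * homogeneousComponent s n).IsHomogeneous (1 + s) :=
        (ycoord_isHomogeneous a c i).mul (homogeneousComponent_isHomogeneous s n)
      rw [homogeneousComponent_of_mem h3]
      split_ifs with hs
      · rw [iterate_dir_mul_of_dir_eq_zero a (dir_ycoord hc i), ih n hn s j (by omega), mul_zero]
      · exact iterate_dir_zero a j
    intro e j hej
    refine Submodule.mul_induction_on hG' (fun m hm n hn => ?_) (fun x y hx hy => ?_)
    · induction hm using Submodule.span_induction generalizing n with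
      | mem x hx =>
        obtain ⟨i, rfl⟩ := hx
        exact hbasic i n hn e j hej
      | zero => rw [zero_mul, map_zero, iterate_dir_zero]
      | add x y _ _ hx hy => rw [add_mul, map_add, hiter_add, hx n hn, hy n hn, add_zero]
      | smul r x _ hx =>
        have h4 : r • x * n = x * (r * n) := by rw [smul_eq_mul]; ring
        rw [h4]
        exact hx (r * n) (Ideal.mul_mem_left _ _ hn)
    · rw [map_add, hiter_add, hx, hy, add_zero]

/-- If a form `F` of degree `d` lies in the `u`-th power of the ideal of the point, then its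
derivatives of order `> d - u` in the direction `a` vanish. -/
theorem iterate_dir_of_mem_pow {a : σ → k} {c : σ} (hc : a c ≠ 0) {F : MvPolynomial σ k}
    {d u j : ℕ} (hF : F.IsHomogeneous d) (hu : F ∈ vecIdeal a ^ u) (h : d + 1 ≤ j + u) :
    (dir a)^[j] F = 0 := by
  have h1 := iterate_dir_component hc u F hu d j h
  rwa [homogeneousComponent_of_mem hF, if_pos rfl] at h1

end

end Pool.Agent.Work.MP_794b84_ag
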